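import Mathlib
import Pool.Agent.H175F.Final

set_option autoImplicit false

/-!
For the class `C` of (gem, `P_2 + P_3`)-free graphs, well-quasi-ordering by induced subgraphs implies
bounded clique-width. (The class has bounded clique-width in any case.)
-/

namespace Pool.Agent.Results.MP_7588da_co.WqoCliqueWidth

/-- the gem: the complement of `P_1 + P_4` (the path `0 1 2 3` and the isolated vertex `4`) -/
def gem : SimpleGraph (Fin 5) :=
  (SimpleGraph.fromRel (fun a b : Fin 5 => a.val + 1 = b.val ∧ b.val ≤ 3))ᶜ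

/-- the graph `P_2 + P_3` -/
def p2p3 : SimpleGraph (Fin 5) :=
  SimpleGraph.fromRel (fun a b : Fin 5 =>
    (a.val = 0 ∧ b.val = 1) ∨ (a.val = 2 ∧ b.val = 3) ∨ (a.val = 3 ∧ b.val = 4))

/-- `G` is in the class `C`: it is (gem, `P_2 + P_3`)-free -/
def InC {V : Type} (G : SimpleGraph V) : Prop := IsEmpty (gem ↪g G) ∧ IsEmpty (p2p3 ↪g G)

/-- `Built S l H`: the graph `H` (with vertices in `S`, labelled by `l`) is built by a `k`-label
expression; the vertices outside `S` are not yet present -/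
inductive Built {k : ℕ} {V : Type} : Set V → (V → Fin k) → SimpleGraph V → Prop
  | single (v : V) (l : V → Fin k) : Built {v} l ⊥
  | union (S₁ S₂ : Set V) (l₁ l₂ l : V → Fin k) (H₁ H₂ : SimpleGraph V) (h₁ : Built S₁ l₁ H₁)
      (h₂ : Built S₂ l₂ H₂) (hd : Disjoint S₁ S₂) (e₁ : ∀ u ∈ S₁, l u = l₁ u)
      (e₂ : ∀ u ∈ S₂, l u = l₂ u) : Built (S₁ ∪ S₂) l (H₁ ⊔ H₂)
  | join (S : Set V) (l : V → Fin k) (H H' : SimpleGraph V) (i j : Fin k) (h : Built S l H)
      (hij : i ≠ j) (e : ∀ u v : V, H'.Adj u v ↔ (H.Adj u v ∨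
        (u ∈ S ∧ v ∈ S ∧ ((l u = i ∧ l v = j) ∨ (l u = j ∧ l v = i))))) : Built S l H'
  | rename (S : Set V) (l l' : V → Fin k) (H : SimpleGraph V) (i j : Fin k) (h : Built S l H)
      (e : ∀ u ∈ S, (l u = i → l' u = j) ∧ (l u ≠ i → l' u = l u)) : Built S l' H

/-- `G` has clique-width at most `k` -/
def CliqueWidthLE {V : Type} (G : SimpleGraph V) (k : ℕ) : Prop :=
  ∃ l : V → Fin k, Built Set.univ l G

/-- the class `C` has bounded clique-width -/
def BoundedCliqueWidth : Prop :=
  ∃ k : ℕ, ∀ (V : Type) [Finite V] [Nonempty V] (G : SimpleGraph V), InC G → CliqueWidthLE G k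

/-- the class `C` is well-quasi-ordered by the induced subgraph relation: it contains no infinite
antichain -/
def WellQuasiOrdered : Prop :=
  ¬ ∃ (V : ℕ → Type) (_ : ∀ n, Finite (V n)) (G : ∀ n, SimpleGraph (V n)),
    (∀ n, InC (G n)) ∧ ∀ m n, m ≠ n → IsEmpty (G m ↪g G n)

/-- **Q1 is true**: for the class `C` of (gem, `P_2 + P_3`)-free graphs, well-quasi-ordering by the
induced subgraph relation implies bounded clique-width; in fact `C` has bounded clique-width. -/
theorem result : (WellQuasiOrdered → BoundedCliqueWidth) ∧ BoundedCliqueWidth := by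
  have h : BoundedCliqueWidth := by
    obtain ⟨k, hk⟩ := Pool.Agent.H175G.frozen_of Pool.Agent.H175G.main_stmt
    refine ⟨k, fun V _ _ G hG => ?_⟩
    obtain ⟨l, hl⟩ := hk V G hG.1 hG.2
    exact ⟨l, hl Built Built.single Built.union Built.join Built.rename⟩
  exact ⟨fun _ => h, h⟩

end Pool.Agent.Results.MP_7588da_co.WqoCliqueWidth
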